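import Pool.Agent.W871.HI.Stm2

/-!
# MP_5f0aae_co: further intermediate statements
-/

open Finset

namespace Pool.Agent.W871.HI

noncomputable section

/-! ### Recurrence for the sums over ordered cycle types -/

def S_rec : Prop := ∀ (c : ℚ) (g : (k : ℕ) → (Fin k → ℕ) → R),
  (∀ (k : ℕ) (e : Equiv.Perm (Fin k)) (m : Fin k → ℕ), g k (m ∘ e) = g k m) → ∀ n : ℕ,
  (n : R) * T (fun l => c * (l : ℚ)⁻¹) n g =
    c • ∑ l ∈ Icc 1 n, T (fun l => c * (l : ℚ)⁻¹) (n - l) (fun k m => g (k + 1) (Fin.cons l m))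

/-! ### Invariant graphs: the two kinds of factors -/

def S_parA : Prop := ∀ (l : ℕ) (hl : 1 ≤ l),
  (∑ᶠ H ∈ {H : SimpleGraph (Fin l) | Inv (finRotate l) H},
    (Polynomial.C (x ^ H.edgeSet.ncard) : Polynomial R) *
      Polynomial.X ^ (H.neighborSet ⟨0, hl⟩).ncard) = selfP l

def S_parB : Prop := ∀ (l m : ℕ) (hl : 1 ≤ l) (hm : 1 ≤ m) (A : Type) [CommRing A] [Algebra R A]
  (a b : A),
  (∑ᶠ E ∈ {E : Set (Fin l × Fin m) | ∀ u v, (finRotate l u, finRotate m v) ∈ E ↔ (u, v) ∈ E},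
    algebraMap R A (x ^ E.ncard) * a ^ {v | ((⟨0, hl⟩ : Fin l), v) ∈ E}.ncard *
      b ^ {u | (u, (⟨0, hm⟩ : Fin m)) ∈ E}.ncard) = pairP a b l m

/-! ### Splitting -/

/-- The restriction of a sequence to the positions in `U`. -/
def res {k : ℕ} (U : Finset (Fin k)) (m : Fin k → ℕ) : Fin U.card → ℕ :=
  fun i => m (U.orderEmbOfFin rfl i)

def S_bin : Prop := ∀ (F : (k : ℕ) → (Fin k → ℕ) → (k' : ℕ) → (Fin k' → ℕ) → R) (p : ℕ),
  T wp p (fun k m => ∑ U : Finset (Fin k),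
    (-1) ^ U.card * F (Uᶜ).card (res Uᶜ m) U.card (res U m)) =
  ∑ n ∈ range (p + 1), T wp n (fun k m => T wm (p - n) (F k m))

def S_fac : Prop := ∀ (k : ℕ) (m : Fin k → ℕ),
  ∑ d ∈ (P selfP k m).support with (∀ i, d i ≠ 2), MvPolynomial.coeff d (P selfP k m) =
  ∑ U : Finset (Fin k), (-1) ^ U.card *
    (G0 (Uᶜ).card (res Uᶜ m) * Nx (Senv (Uᶜ).card (res Uᶜ m)) U.card (res U m))

/-! ### Expansion with respect to the first variable -/

def S_x0 : Prop := ∀ S : ℕ → Polynomial R, (∀ l, (S l).coeff 0 = 1) →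
  ∀ l, 1 ≤ l → ∀ (k : ℕ) (m d : Fin k → ℕ), (∀ i, 1 ≤ m i) →
  co S (k + 1) (Fin.cons l m) (Fin.cons 0 d) = co S k m d

def S_x1 : Prop := ∀ S : ℕ → Polynomial R, (∀ l, (S l).coeff 0 = 1) →
  ∀ l, 1 ≤ l → ∀ (k : ℕ) (m d : Fin k → ℕ), (∀ i, 1 ≤ m i) →
  co S (k + 1) (Fin.cons l m) (Fin.cons 1 d) = (S l).coeff 1 * co S k m d +
    ∑ j, (if m j ∣ l ∧ l / m j ≤ d j then
      (m j : R) * x ^ l * co S k m (Function.update d j (d j - l / m j)) else 0)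

def S_x2 : Prop := ∀ S : ℕ → Polynomial R, (∀ l, (S l).coeff 0 = 1) →
  ∀ l, 1 ≤ l → ∀ (k : ℕ) (m d : Fin k → ℕ), (∀ i, 1 ≤ m i) →
  co S (k + 1) (Fin.cons l m) (Fin.cons 2 d) = (S l).coeff 2 * co S k m d +
    (S l).coeff 1 * ∑ j, (if m j ∣ l ∧ l / m j ≤ d j then
      (m j : R) * x ^ l * co S k m (Function.update d j (d j - l / m j)) else 0) +
    ∑ j, (if m j ∣ l ∧ 2 * l / m j ≤ d j then
      (((m j).choose 2 : ℕ) : R) * x ^ (2 * l) *
        co S k m (Function.update d j (d j - 2 * l / m j)) else 0) +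
    ∑ j, (if m j ∣ 2 * l ∧ ¬ m j ∣ l ∧ 2 * l / m j ≤ d j then
      ((m j / 2 : ℕ) : R) * x ^ (2 * l) *
        co S k m (Function.update d j (d j - 2 * l / m j)) else 0) +
    ∑ i, ∑ j ∈ Ioi i, (if m i ∣ l ∧ m j ∣ l ∧ l / m i ≤ d i ∧ l / m j ≤ d j then
      (m i : R) * (m j : R) * x ^ (2 * l) *
        co S k m (Function.update (Function.update d i (d i - l / m i)) j (d j - l / m j)) else 0)

end

end Pool.Agent.W871.HI
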