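import Pool.Agent.W871.HI.Stm3

/-!
# MP_5f0aae_co: the three relations
-/

open Finset

namespace Pool.Agent.W871.HI

noncomputable section

lemma co_front (hsym : S_sym) (S : ℕ → Polynomial R) (k : ℕ) (m d : Fin (k + 1) → ℕ)
    (j : Fin (k + 1)) :
    co S (k + 1) m d =
      co S (k + 1) (Fin.cons (m j) (j.removeNth m)) (Fin.cons (d j) (j.removeNth d)) := by
  rw [Fin.cons_removeNth_eq_comp_cycleRange_symm m j,
    Fin.cons_removeNth_eq_comp_cycleRange_symm d j, hsym]

lemma co_upd (hsym : S_sym) (S : ℕ → Polynomial R) (k : ℕ) (m : Fin (k + 1) → ℕ)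
    (j : Fin (k + 1)) (b : ℕ) :
    co S (k + 1) m (Function.update (fun _ => 2) j b) =
      co S (k + 1) (Fin.cons (m j) (j.removeNth m)) (Fin.cons b (fun _ => 2)) := by
  rw [co_front hsym S k m _ j, Function.update_self, Fin.removeNth_update]
  rfl

lemma co_upd2 (hsym : S_sym) (S : ℕ → Polynomial R) (k l a b : ℕ) (m : Fin (k + 1) → ℕ)
    (j : Fin (k + 1)) :
    co S (k + 2) (Fin.cons l m) (Fin.cons a (Function.update (fun _ => 2) j b)) =
      co S (k + 2) (Fin.cons (m j) (Fin.cons l (j.removeNth m))) (Fin.cons b (Fin.cons a (fun _ => 2))) := by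
  rw [co_front hsym S (k + 1) _ _ j.succ]
  have h1 : ∀ (c : ℕ) (f : Fin (k + 1) → ℕ),
      j.succ.removeNth (Fin.cons c f : Fin (k + 2) → ℕ) = Fin.cons c (j.removeNth f) := by
    intro c f
    funext i
    refine Fin.cases ?_ (fun i => ?_) i
    · simp [Fin.removeNth]
    · simp [Fin.removeNth]
  rw [h1, h1, Fin.cons_succ, Fin.cons_succ, Function.update_self, Fin.removeNth_update]
  rfl

lemma co_upd3 (hsym : S_sym) (S : ℕ → Polynomial R) (k a b : ℕ) (m : Fin (k + 2) → ℕ)
    (i : Fin (k + 2)) (j : Fin (k + 1)) :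
    co S (k + 2) m (Function.update (Function.update (fun _ => 2) i a) (i.succAbove j) b) =
      co S (k + 2) (Fin.cons (m (i.succAbove j)) (Fin.cons (m i) (j.removeNth (i.removeNth m))))
        (Fin.cons b (Fin.cons a (fun _ => 2))) := by
  rw [co_front hsym S (k + 1) _ _ i]
  have h1 : i.removeNth (Function.update (Function.update (fun _ => 2) i a) (i.succAbove j) b) =
      Function.update (fun _ => 2) j b := by
    rw [Fin.removeNth_update_succAbove, Fin.removeNth_update]
    rfl
  have h2 : Function.update (Function.update (fun _ => 2) i a) (i.succAbove j) b i = a := by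
    rw [Function.update_of_ne (Fin.succAbove_ne i j).symm, Function.update_self]
  rw [h1, h2, co_upd2 hsym]
  rfl

section
variable (hx0 : S_x0) (hx1 : S_x1) (hx2 : S_x2) (hsym : S_sym)

lemma cons_pos {l k : ℕ} {m : Fin k → ℕ} (hl : 1 ≤ l) (hm : ∀ i, 1 ≤ m i) :
    ∀ i, 1 ≤ (Fin.cons l m : Fin (k + 1) → ℕ) i := by
  intro i
  refine Fin.cases ?_ (fun i' => ?_) i
  · simpa using hl
  · simpa using hm i'

lemma rem_pos {k : ℕ} {m : Fin (k + 1) → ℕ} (hm : ∀ i, 1 ≤ m i) (j : Fin (k + 1)) :
    ∀ i, 1 ≤ (j.removeNth m) i := fun i => hm _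

/-- The single sum. -/
lemma single {a l : ℕ} (hl : 1 ≤ l) (ha : 1 ≤ a) (F : ℕ → R) (G0' G1' : R)
    (h1 : a = l → F 1 = G1') (h0 : a + a = l → F 0 = G0') :
    (if a ∣ l ∧ l / a ≤ 2 then (a : R) * x ^ l * F (2 - l / a) else 0) =
      (if a = l then (l : R) * x ^ l * G1' else 0) +
      ev l (if a = l / 2 then ((l / 2 : ℕ) : R) * x ^ l * G0' else 0) := by
  by_cases e1 : a = l
  · subst e1
    have h2 : ¬ a = a / 2 := by omega
    have h3 : a / a = 1 := Nat.div_self hl
    rw [if_pos ⟨dvd_rfl, by omega⟩, if_pos rfl, if_neg h2, h3, ← h1 rfl]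
    simp [ev]
  · by_cases e2 : a + a = l
    · have h2 : a = l / 2 := by omega
      have h3 : l / a = 2 := by
        rw [← e2, ← two_mul, Nat.mul_div_cancel _ ha]
      have h4 : Even l := ⟨a, e2.symm⟩
      have h5 : a ∣ l := ⟨2, by omega⟩
      rw [if_pos ⟨h5, by omega⟩, if_neg e1, if_pos h2, h3, ← h0 e2, ← h2]
      simp [ev, h4]
    · rw [if_neg, if_neg e1, zero_add]
      · unfold ev
        split_ifs with h6 h7
        · obtain ⟨j, hj⟩ := h6
          omega
        · rfl
        · rfl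
      · rintro ⟨⟨c, hc⟩, h7⟩
        have h8 : l / a = c := by rw [hc, Nat.mul_div_cancel_left _ ha]
        rw [h8] at h7
        interval_cases c
        · omega
        · omega
        · omega

include hx0 hsym in
lemma single_sum (S : ℕ → Polynomial R) (hS : ∀ l, (S l).coeff 0 = 1) (l : ℕ) (hl : 1 ≤ l)
    (k : ℕ) (m : Fin k → ℕ) (hm : ∀ i, 1 ≤ m i) :
    ∑ j, (if m j ∣ l ∧ l / m j ≤ 2 then
      (m j : R) * x ^ l * co S k m (Function.update (fun _ => 2) j (2 - l / m j)) else 0) =
    (l : R) * x ^ l * rm l (N1 S l) k m + ev l (((l / 2 : ℕ) : R) * x ^ l * rm (l / 2) (Nx S) k m) := by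
  rcases k with _ | k
  · simp [rm, ev]
  · have key : ∀ j, (if m j ∣ l ∧ l / m j ≤ 2 then
        (m j : R) * x ^ l * co S (k + 1) m (Function.update (fun _ => 2) j (2 - l / m j)) else 0) =
        (if m j = l then (l : R) * x ^ l * N1 S l k (j.removeNth m) else 0) +
        ev l (if m j = l / 2 then ((l / 2 : ℕ) : R) * x ^ l * Nx S k (j.removeNth m) else 0) := by
      intro j
      apply single hl (hm j) (fun b => co S (k + 1) m (Function.update (fun _ => 2) j b))
      · intro h
        rw [co_upd hsym, h]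
        rfl
      · intro h
        rw [co_upd hsym, hx0 S hS (m j) (hm j) k _ _ (rem_pos hm j)]
        rfl
    rw [Finset.sum_congr rfl fun j _ => key j, Finset.sum_add_distrib]
    congr 1
    · simp only [rm, Finset.mul_sum, mul_ite, mul_zero]
    · unfold ev
      split_ifs
      · simp only [rm, Finset.mul_sum, mul_ite, mul_zero]
      · simp

include hx0 hx1 hsym in
theorem c1 : S_c1 := by
  intro S hS l hl k m hm
  have h := hx1 S hS l hl k m (fun _ => 2) hm
  have h2 := single_sum hx0 hsym S hS l hl k m hm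
  rw [h2] at h
  rw [add_assoc]
  exact h

include hx0 hx1 hsym in
theorem c11 : S_c11 := by
  intro S hS l hl k m hm
  have h := hx1 S hS l hl (k + 1) (Fin.cons l m) (Fin.cons 1 (fun _ => 2)) (cons_pos hl hm)
  rw [Fin.sum_univ_succ] at h
  simp only [Fin.cons_zero, Fin.cons_succ, Nat.div_self hl, le_refl, dvd_refl, and_self, if_true,
    Nat.sub_self] at h
  have h0 : (Function.update (Fin.cons 1 (fun _ => 2) : Fin (k + 1) → ℕ) 0 0) =
      Fin.cons 0 (fun _ => 2) := by
    simp
  rw [h0, hx0 S hS l hl k m _ hm] at h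
  have h2 : ∑ j : Fin k, (if m j ∣ l ∧ l / m j ≤ 2 then
      (m j : R) * x ^ l * co S (k + 1) (Fin.cons l m)
        (Function.update (Fin.cons 1 (fun _ => 2) : Fin (k + 1) → ℕ) j.succ (2 - l / m j)) else 0) =
    (l : R) * x ^ l * rm l (N11 S l) k m
      + ev l (((l / 2 : ℕ) : R) * x ^ l * rm (l / 2) (N1 S l) k m) := by
    rcases k with _ | k
    · simp [rm, ev]
    · have key : ∀ j, (if m j ∣ l ∧ l / m j ≤ 2 then
          (m j : R) * x ^ l * co S (k + 2) (Fin.cons l m)
            (Function.update (Fin.cons 1 (fun _ => 2) : Fin (k + 2) → ℕ) j.succ (2 - l / m j)) else 0) =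
          (if m j = l then (l : R) * x ^ l * N11 S l k (j.removeNth m) else 0) +
          ev l (if m j = l / 2 then ((l / 2 : ℕ) : R) * x ^ l * N1 S l k (j.removeNth m) else 0) := by
        intro j
        apply single hl (hm j) (fun b => co S (k + 2) (Fin.cons l m)
            (Function.update (Fin.cons 1 (fun _ => 2) : Fin (k + 2) → ℕ) j.succ b))
        · intro h
          rw [← Fin.cons_update, co_upd2 hsym, h]
          rfl
        · intro h
          rw [← Fin.cons_update, co_upd2 hsym, hx0 S hS (m j) (hm j) (k + 1) _ _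
            (cons_pos hl (rem_pos hm j))]
          rfl
      rw [Finset.sum_congr rfl fun j _ => key j, Finset.sum_add_distrib]
      congr 1
      · simp only [rm, Finset.mul_sum, mul_ite, mul_zero]
      · unfold ev
        split_ifs
        · simp only [rm, Finset.mul_sum, mul_ite, mul_zero]
        · simp
  rw [h2] at h
  have h3 : N11 S l k m = co S (k + 1 + 1) (Fin.cons l (Fin.cons l m)) (Fin.cons 1 (Fin.cons 1 (fun _ => 2))) := rfl
  have h4 : N1 S l k m = co S (k + 1) (Fin.cons l m) (Fin.cons 1 (fun _ => 2)) := rfl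
  have h5 : Nx S k m = co S k m (fun _ => 2) := rfl
  rw [h3, h, ← h4, ← h5]
  ring


/-! ### The second coefficient -/

lemma two_sum_Ioi {k : ℕ} (f : Fin k → Fin k → R) (hf : ∀ i j, i ≠ j → f i j = f j i) :
    2 * ∑ i, ∑ j ∈ Ioi i, f i j = ∑ i, ∑ j, (if i ≠ j then f i j else 0) := by
  have h1 : ∀ i, ∑ j ∈ Ioi i, f i j = ∑ j, (if i < j then f i j else 0) := by
    intro i
    rw [← Finset.sum_filter]
    apply Finset.sum_congr _ fun _ _ => rfl
    ext j; simp
  have h2 : ∑ i, ∑ j, (if i ≠ j then f i j else 0) = ∑ i, ∑ j, (if i < j then f i j else 0) +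
      ∑ i, ∑ j, (if j < i then f i j else 0) := by
    rw [← Finset.sum_add_distrib]
    refine Finset.sum_congr rfl fun i _ => ?_
    rw [← Finset.sum_add_distrib]
    refine Finset.sum_congr rfl fun j _ => ?_
    rcases lt_trichotomy i j with h | h | h
    · simp [h, h.ne, h.not_gt]
    · simp [h]
    · simp [h, h.ne', h.not_gt]
  have h3 : ∑ i, ∑ j, (if j < i then f i j else 0) = ∑ i, ∑ j, (if i < j then f i j else 0) := by
    rw [Finset.sum_comm]
    refine Finset.sum_congr rfl fun i _ => Finset.sum_congr rfl fun j _ => ?_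
    by_cases h : i < j
    · rw [if_pos h, if_pos h, hf j i h.ne']
    · rw [if_neg h, if_neg h]
  rw [h2, h3, Finset.sum_congr rfl fun i _ => h1 i, two_mul]

/-- Sum over the ordered pairs of distinct indices. -/
def dsum {k : ℕ} (f : Fin k → Fin k → R) : R := ∑ i, ∑ j, (if i ≠ j then f i j else 0)

lemma dsum_congr {k : ℕ} {f g : Fin k → Fin k → R} (h : ∀ i j, i ≠ j → f i j = g i j) :
    dsum f = dsum g := by
  unfold dsum
  refine Finset.sum_congr rfl fun i _ => Finset.sum_congr rfl fun j _ => ?_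
  by_cases hij : i ≠ j
  · rw [if_pos hij, if_pos hij, h i j hij]
  · rw [if_neg hij, if_neg hij]

lemma dsum_add {k : ℕ} (f g : Fin k → Fin k → R) :
    dsum (fun i j => f i j + g i j) = dsum f + dsum g := by
  unfold dsum
  rw [← Finset.sum_add_distrib]
  refine Finset.sum_congr rfl fun i _ => ?_
  rw [← Finset.sum_add_distrib]
  refine Finset.sum_congr rfl fun j _ => ?_
  split_ifs <;> simp

lemma dsum_ev {k : ℕ} (l : ℕ) (f : Fin k → Fin k → R) :
    dsum (fun i j => ev l (f i j)) = ev l (dsum f) := by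
  unfold ev
  split_ifs
  · rfl
  · simp [dsum]

lemma dsum_swap {k : ℕ} (f : Fin k → Fin k → R) : dsum (fun i j => f j i) = dsum f := by
  unfold dsum
  rw [Finset.sum_comm]
  refine Finset.sum_congr rfl fun i _ => Finset.sum_congr rfl fun j _ => ?_
  by_cases hij : i = j
  · simp [hij]
  · rw [if_pos (Ne.symm hij), if_pos hij]

lemma dsum_succ {k : ℕ} (f : Fin (k + 1) → Fin (k + 1) → R) :
    dsum f = ∑ i, ∑ j : Fin k, f i (i.succAbove j) := by
  unfold dsum
  refine Finset.sum_congr rfl fun i _ => ?_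
  rw [Fin.sum_univ_succAbove _ i]
  simp [(Fin.succAbove_ne i _).symm]

lemma rm_rm (a b : ℕ) (g : (k : ℕ) → (Fin k → ℕ) → R) (k : ℕ) (m : Fin (k + 2) → ℕ) :
    rm a (rm b g) (k + 2) m = ∑ i, ∑ j : Fin (k + 1),
      (if m i = a ∧ m (i.succAbove j) = b then g k (j.removeNth (i.removeNth m)) else 0) := by
  simp only [rm]
  refine Finset.sum_congr rfl fun i _ => ?_
  by_cases h : m i = a
  · simp only [h, if_true, true_and]
    rfl
  · simp [h]

lemma dsum_rm (S : ℕ → Polynomial R) (g : (k : ℕ) → (Fin k → ℕ) → R) (a b p q : ℕ) (c : R)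
    (hg : ∀ (k : ℕ) (m : Fin (k + 2) → ℕ), (∀ i, 1 ≤ m i) → ∀ (i : Fin (k + 2)) (j : Fin (k + 1)),
      m i = a → m (i.succAbove j) = b →
      co S (k + 2) m (Function.update (Function.update (fun _ => 2) i p) (i.succAbove j) q) =
        g k (j.removeNth (i.removeNth m))) (k : ℕ) (m : Fin k → ℕ) (hm : ∀ i, 1 ≤ m i) :
    dsum (fun i j => if m i = a ∧ m j = b then
      c * co S k m (Function.update (Function.update (fun _ => 2) i p) j q) else 0) =
      c * rm a (rm b g) k m := by
  rcases k with _ | _ | k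
  · simp [dsum, rm]
  · rw [dsum_succ]
    simp [rm]
  · rw [dsum_succ, rm_rm, Finset.mul_sum]
    refine Finset.sum_congr rfl fun i _ => ?_
    rw [Finset.mul_sum]
    refine Finset.sum_congr rfl fun j _ => ?_
    by_cases h : m i = a ∧ m (i.succAbove j) = b
    · rw [if_pos h, if_pos h, hg k m hm i j h.1 h.2]
    · rw [if_neg h, if_neg h, mul_zero]

include hx0 hsym in
lemma double_sum (S : ℕ → Polynomial R) (hS : ∀ l, (S l).coeff 0 = 1) (l : ℕ) (hl : 1 ≤ l)
    (k : ℕ) (m : Fin k → ℕ) (hm : ∀ i, 1 ≤ m i) :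
    ∑ i, ∑ j ∈ Ioi i, (if m i ∣ l ∧ m j ∣ l ∧ l / m i ≤ 2 ∧ l / m j ≤ 2 then
      (m i : R) * (m j : R) * x ^ (2 * l) *
        co S k m (Function.update (Function.update (fun _ => 2) i (2 - l / m i)) j (2 - l / m j)) else 0) =
    (2⁻¹ : ℚ) • ((l : R) ^ 2 * x ^ (2 * l) * rm l (rm l (N11 S l)) k m
        + 2 * ev l ((l : R) * ((l / 2 : ℕ) : R) * x ^ (2 * l) * rm l (rm (l / 2) (N1 S l)) k m)
        + ev l (((l / 2 : ℕ) : R) ^ 2 * x ^ (2 * l) * rm (l / 2) (rm (l / 2) (Nx S)) k m)) := by
  set f : Fin k → Fin k → R := fun i j => (if m i ∣ l ∧ m j ∣ l ∧ l / m i ≤ 2 ∧ l / m j ≤ 2 then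
      (m i : R) * (m j : R) * x ^ (2 * l) *
        co S k m (Function.update (Function.update (fun _ => 2) i (2 - l / m i)) j (2 - l / m j)) else 0) with hf
  have hsymm : ∀ i j, i ≠ j → f i j = f j i := by
    intro i j hij
    simp only [hf]
    rw [Function.update_comm hij]
    by_cases h : m i ∣ l ∧ m j ∣ l ∧ l / m i ≤ 2 ∧ l / m j ≤ 2
    · rw [if_pos h, if_pos ⟨h.2.1, h.1, h.2.2.2, h.2.2.1⟩]
      ring
    · rw [if_neg h, if_neg]
      rintro ⟨h1, h2, h3, h4⟩
      exact h ⟨h2, h1, h4, h3⟩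
  have h2 := two_sum_Ioi f hsymm
  change _ = dsum f at h2
  -- the three kinds of terms
  set c11 : R := (l : R) ^ 2 * x ^ (2 * l) with hc11
  set c10 : R := (l : R) * ((l / 2 : ℕ) : R) * x ^ (2 * l) with hc10
  set c00 : R := ((l / 2 : ℕ) : R) ^ 2 * x ^ (2 * l) with hc00
  set F11 : Fin k → Fin k → R := fun i j =>
    co S k m (Function.update (Function.update (fun _ => 2) i 1) j 1) with hF11
  set F10 : Fin k → Fin k → R := fun i j =>
    co S k m (Function.update (Function.update (fun _ => 2) i 1) j 0) with hF10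
  set F00 : Fin k → Fin k → R := fun i j =>
    co S k m (Function.update (Function.update (fun _ => 2) i 0) j 0) with hF00
  have hdec : ∀ i j, i ≠ j → f i j = ((if m i = l ∧ m j = l then c11 * F11 i j else 0) +
      ev l ((if m i = l ∧ m j = l / 2 then c10 * F10 i j else 0) +
        (if m j = l ∧ m i = l / 2 then c10 * F10 j i else 0))) +
      ev l (if m i = l / 2 ∧ m j = l / 2 then c00 * F00 i j else 0) := by
    intro i j hij
    have hcase : ∀ a, 1 ≤ a → a ∣ l → l / a ≤ 2 → a = l ∨ (Even l ∧ a = l / 2 ∧ l / a = 2 ∧ a ≠ l) := by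
      rintro a ha ⟨c, hc⟩ hle
      rw [hc, Nat.mul_div_cancel_left _ ha] at hle
      interval_cases c
      · omega
      · left; omega
      · right
        refine ⟨⟨a, by omega⟩, by omega, ?_, by omega⟩
        rw [hc, Nat.mul_div_cancel_left _ ha]
    have hll : l / l = 1 := Nat.div_self hl
    have hne : l ≠ l / 2 := by omega
    by_cases h : m i ∣ l ∧ m j ∣ l ∧ l / m i ≤ 2 ∧ l / m j ≤ 2
    · obtain ⟨h1, h3, h4, h5⟩ := h
      simp only [hf]
      rw [if_pos ⟨h1, h3, h4, h5⟩]
      rcases hcase _ (hm i) h1 h4 with hi | ⟨he, hi, hi2, hi3⟩ <;>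
      rcases hcase _ (hm j) h3 h5 with hj | ⟨he', hj, hj2, hj3⟩
      · have q1 : ¬ (m i = l ∧ m j = l / 2) := by omega
        have q2 : ¬ (m j = l ∧ m i = l / 2) := by omega
        have q3 : ¬ (m i = l / 2 ∧ m j = l / 2) := by omega
        rw [if_pos ⟨hi, hj⟩, if_neg q1, if_neg q2, if_neg q3, hi, hj, hll]
        simp only [ev, ite_self, hc11, hF11, add_zero]
        ring
      · rw [hj2, if_neg (by rw [hi]; tauto), if_pos ⟨hi, hj⟩, if_neg (by rw [hi]; tauto),
          if_neg (by rw [hi]; tauto), hi, hll, hj]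
        simp [ev, he', hc10, hF10]
      · rw [hi2, if_neg (by tauto), if_neg (by tauto), if_pos ⟨hj, hi⟩,
          if_neg (by rw [hj]; tauto), hj, hll, hi]
        simp only [ev, he, if_true, hc10, hF10, add_zero, zero_add]
        rw [Function.update_comm hij]
        ring
      · rw [hi2, hj2, if_neg (by tauto), if_neg (by tauto), if_neg (by tauto), if_pos ⟨hi, hj⟩, hi, hj]
        simp only [ev, he, if_true, hc00, hF00, add_zero, zero_add]
        ring
    · simp only [hf]
      rw [if_neg h]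
      have a1 : ¬ (m i = l ∧ m j = l) := by
        rintro ⟨e1, e2⟩
        exact h ⟨by rw [e1], by rw [e2], by rw [e1, hll]; omega, by rw [e2, hll]; omega⟩
      rw [if_neg a1]
      unfold ev
      by_cases he : Even l
      · obtain ⟨t, ht⟩ := he
        have ht2 : l / 2 = t := by omega
        have ht1 : 1 ≤ t := by omega
        have ht3 : t ∣ l := ⟨2, by omega⟩
        have ht4 : l / t ≤ 2 := by
          rw [ht, ← two_mul, Nat.mul_div_cancel _ ht1]
        have he : Even l := ⟨t, ht⟩
        have a2 : ¬ (m i = l ∧ m j = l / 2) := by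
          rintro ⟨e1, e2⟩
          rw [ht2] at e2
          exact h ⟨by rw [e1], by rw [e2]; exact ht3, by rw [e1, hll]; omega, by rw [e2]; exact ht4⟩
        have a3 : ¬ (m j = l ∧ m i = l / 2) := by
          rintro ⟨e1, e2⟩
          rw [ht2] at e2
          exact h ⟨by rw [e2]; exact ht3, by rw [e1], by rw [e2]; exact ht4, by rw [e1, hll]; omega⟩
        have a4 : ¬ (m i = l / 2 ∧ m j = l / 2) := by
          rintro ⟨e1, e2⟩
          rw [ht2] at e1 e2
          exact h ⟨by rw [e1]; exact ht3, by rw [e2]; exact ht3, by rw [e1]; exact ht4,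
            by rw [e2]; exact ht4⟩
        simp [a2, a3, a4]
      · simp [he]
  have hD : dsum f = c11 * rm l (rm l (N11 S l)) k m
        + 2 * ev l (c10 * rm l (rm (l / 2) (N1 S l)) k m)
        + ev l (c00 * rm (l / 2) (rm (l / 2) (Nx S)) k m) := by
    rw [dsum_congr hdec, dsum_add, dsum_add, dsum_ev, dsum_ev, dsum_add,
      dsum_swap (fun i j => if m i = l ∧ m j = l / 2 then c10 * F10 i j else 0)]
    have b1 : dsum (fun i j => if m i = l ∧ m j = l then c11 * F11 i j else 0) =
        c11 * rm l (rm l (N11 S l)) k m := by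
      apply dsum_rm S (N11 S l) l l 1 1 c11 _ k m hm
      intro k m hm i j hi hj
      rw [co_upd3 hsym, hi, hj]
      rfl
    have b2 : dsum (fun i j => if m i = l ∧ m j = l / 2 then c10 * F10 i j else 0) =
        c10 * rm l (rm (l / 2) (N1 S l)) k m := by
      apply dsum_rm S (N1 S l) l (l / 2) 1 0 c10 _ k m hm
      intro k m hm i j hi hj
      rw [co_upd3 hsym, hx0 S hS _ (hm _) _ _ _ (cons_pos (hm i) (rem_pos (rem_pos hm i) j)), hi]
      rfl
    have b3 : dsum (fun i j => if m i = l / 2 ∧ m j = l / 2 then c00 * F00 i j else 0) =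
        c00 * rm (l / 2) (rm (l / 2) (Nx S)) k m := by
      apply dsum_rm S (Nx S) (l / 2) (l / 2) 0 0 c00 _ k m hm
      intro k m hm i j hi hj
      rw [co_upd3 hsym, hx0 S hS _ (hm _) _ _ _ (cons_pos (hm i) (rem_pos (rem_pos hm i) j)),
        hx0 S hS _ (hm _) _ _ _ (rem_pos (rem_pos hm i) j)]
      rfl
    rw [b1, b2, b3]
    have : ∀ z : R, ev l (z + z) = 2 * ev l z := by
      intro z; unfold ev; split_ifs
      · ring
      · ring
    rw [this]
  rw [hD] at h2
  rw [← h2, Algebra.smul_def, ← mul_assoc]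
  have : algebraMap ℚ R 2⁻¹ * 2 = 1 := by
    have h22 : (2 : R) = algebraMap ℚ R 2 := (map_ofNat _ 2).symm
    rw [h22, ← map_mul]; norm_num
  rw [this, one_mul]

include hx0 hx2 hsym in
theorem c2 : S_c2 := by
  intro S hS l hl k m hm
  have h := hx2 S hS l hl k m (fun _ => 2) hm
  have h1 := single_sum hx0 hsym S hS l hl k m hm
  have h2 := double_sum hx0 hsym S hS l hl k m hm
  have h3 : ∑ j, (if m j ∣ l ∧ 2 * l / m j ≤ 2 then
      (((m j).choose 2 : ℕ) : R) * x ^ (2 * l) *
        co S k m (Function.update (fun _ => 2) j (2 - 2 * l / m j)) else 0) =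
      ((l.choose 2 : ℕ) : R) * x ^ (2 * l) * rm l (Nx S) k m := by
    rcases k with _ | k
    · simp [rm]
    · simp only [rm, Finset.mul_sum]
      refine Finset.sum_congr rfl fun j _ => ?_
      by_cases e1 : m j = l
      · have e2 : 2 * l / l = 2 := Nat.mul_div_cancel _ hl
        rw [if_pos e1, e1, e2, if_pos ⟨dvd_rfl, le_rfl⟩, co_upd hsym, e1,
          hx0 S hS l hl k _ _ (rem_pos hm j)]
        rfl
      · rw [if_neg e1, if_neg, mul_zero]
        rintro ⟨⟨c, hc⟩, h7⟩
        have h8 : 2 * l / m j = 2 * c := by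
          rw [hc, show 2 * (m j * c) = m j * (2 * c) by ring, Nat.mul_div_cancel_left _ (hm j)]
        rw [h8] at h7
        have h9 : c = 0 ∨ c = 1 := by omega
        rcases h9 with rfl | rfl
        · omega
        · omega
  have h4 : ∑ j, (if m j ∣ 2 * l ∧ ¬ m j ∣ l ∧ 2 * l / m j ≤ 2 then
      ((m j / 2 : ℕ) : R) * x ^ (2 * l) *
        co S k m (Function.update (fun _ => 2) j (2 - 2 * l / m j)) else 0) =
      (l : R) * x ^ (2 * l) * rm (2 * l) (N1 S (2 * l)) k m := by
    rcases k with _ | k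
    · simp [rm]
    · simp only [rm, Finset.mul_sum]
      refine Finset.sum_congr rfl fun j _ => ?_
      by_cases e1 : m j = 2 * l
      · have e2 : 2 * l / (2 * l) = 1 := Nat.div_self (by omega)
        have e3 : ¬ (2 * l ∣ l) := by
          intro h
          have := Nat.le_of_dvd hl h
          omega
        rw [if_pos e1, e1, e2, if_pos ⟨dvd_rfl, e3, by omega⟩, co_upd hsym, e1,
          show 2 * l / 2 = l by omega]
        rfl
      · rw [if_neg e1, if_neg, mul_zero]
        rintro ⟨⟨c, hc⟩, h6, h7⟩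
        rw [hc, Nat.mul_div_cancel_left _ (hm j)] at h7
        interval_cases c
        · omega
        · omega
        · exact h6 ⟨1, by omega⟩
  rw [h1, h2, h3, h4] at h
  have h5 : N2 S l k m = co S (k + 1) (Fin.cons l m) (Fin.cons 2 (fun _ => 2)) := by
    unfold N2 Nx co
    congr 2
    funext i
    refine Fin.cases ?_ (fun i' => ?_) i
    · simp
    · simp
  have h6 : Nx S k m = co S k m (fun _ => 2) := rfl
  rw [h5, h, ← h6]
  ring

end

end

end Pool.Agent.W871.HI
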