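import Mathlib

/-!
# MP_5f0aae_co: counting homeomorphically irreducible graphs (definitions and statements of the parts)
-/

open Finset

namespace Pool.Agent.W871.HI

noncomputable section

/-- The coefficient ring: polynomials in `x`, which marks lines. -/
abbrev R := Polynomial ℚ

/-- The variable `x` which marks lines. -/
abbrev x : R := Polynomial.X

/-! ### The numbers -/

/-- `G` has no point of degree `2`. -/
def NoTwo {V : Type*} (G : SimpleGraph V) : Prop := ∀ v, (G.neighborSet v).ncard ≠ 2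

/-- Isomorphism of graphs on `Fin p` with `q` lines and no point of degree `2`. -/
def isoSetoid (p q : ℕ) : Setoid {G : SimpleGraph (Fin p) // NoTwo G ∧ G.edgeSet.ncard = q} where
  r G H := Nonempty (G.1 ≃g H.1)
  iseqv := ⟨fun _ => ⟨SimpleGraph.Iso.refl⟩, fun ⟨e⟩ => ⟨e.symm⟩, fun ⟨e⟩ ⟨f⟩ => ⟨e.trans f⟩⟩

/-- The number of homeomorphically irreducible graphs with `p` points and `q` lines
(up to isomorphism). -/
def h (p q : ℕ) : ℕ := Nat.card (Quotient (isoSetoid p q))

/-! ### Part 1: Burnside -/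

/-- `G` is invariant under `σ`. -/
def Inv {V : Type*} (σ : Equiv.Perm V) (G : SimpleGraph V) : Prop :=
  ∀ a b, G.Adj (σ a) (σ b) ↔ G.Adj a b

/-- The sum of `x ^ (number of lines)` over the `σ`-invariant graphs without points of degree `2`. -/
def W (V : Type) (σ : Equiv.Perm V) : R :=
  ∑ᶠ G ∈ {G : SimpleGraph V | Inv σ G ∧ NoTwo G}, x ^ G.edgeSet.ncard

def S_burn : Prop := ∀ p : ℕ,
  ∑ q ∈ range (p.choose 2 + 1), (h p q : R) * x ^ q =
    ((p.factorial : ℚ)⁻¹) • ∑ σ : Equiv.Perm (Fin p), W (Fin p) σ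

/-! ### Part 2: ordered cycle types -/

/-- The permutation of `Σ i, Fin (m i)` which rotates every block. -/
def rot {k : ℕ} (m : Fin k → ℕ) : Equiv.Perm (Σ i : Fin k, Fin (m i)) :=
  Equiv.sigmaCongrRight fun i => finRotate (m i)

/-- Ordered cycle types: the sequences of `k` positive integers with sum `n`. -/
def tup (k n : ℕ) : Finset (Fin k → ℕ) :=
  (Fintype.piFinset fun _ => Icc 1 n).filter fun m => ∑ i, m i = n

/-- Sum over all ordered cycle types of `n`, with weight `(1/k!) ∏ w (m i)`. -/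
def T (w : ℕ → ℚ) (n : ℕ) (g : (k : ℕ) → (Fin k → ℕ) → R) : R :=
  ∑ k ∈ range (n + 1), ∑ m ∈ tup k n, (((k.factorial : ℚ)⁻¹) * ∏ i, w (m i)) • g k m

/-- The weight `1 / l`. -/
def wp (l : ℕ) : ℚ := (l : ℚ)⁻¹

/-- The weight `- 1 / l`. -/
def wm (l : ℕ) : ℚ := -(l : ℚ)⁻¹

def S_cyc : Prop := ∀ f : (V : Type) → Equiv.Perm V → R,
  (∀ (V V' : Type) (e : V ≃ V') (σ : Equiv.Perm V), f V' (e.permCongr σ) = f V σ) →
  ∀ p : ℕ, ((p.factorial : ℚ)⁻¹) • ∑ σ : Equiv.Perm (Fin p), f (Fin p) σ =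
    T wp p (fun k m => f (Σ i : Fin k, Fin (m i)) (rot m))

/-! ### Part 3: invariant graphs of a product of rotations -/

/-- Lines inside a cycle of length `l`; the variable marks the degree. -/
def selfP (l : ℕ) : Polynomial R :=
  (1 + Polynomial.C (x ^ l) * Polynomial.X ^ 2) ^ ((l - 1) / 2) *
    (if Even l then 1 + Polynomial.C (x ^ (l / 2)) * Polynomial.X else 1)

/-- Lines between a cycle of length `l` (degree variable `a`) and one of length `m`
(degree variable `b`). -/
def pairP {A : Type*} [CommRing A] [Algebra R A] (a b : A) (l m : ℕ) : A :=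
  (1 + algebraMap R A (x ^ Nat.lcm l m) * a ^ (m / Nat.gcd l m) * b ^ (l / Nat.gcd l m)) ^
    Nat.gcd l m

/-- The product over the single cycles (factor `S l` for a cycle of length `l`) and over the pairs
of cycles. -/
def P (S : ℕ → Polynomial R) (k : ℕ) (m : Fin k → ℕ) : MvPolynomial (Fin k) R :=
  (∏ i, Polynomial.aeval (MvPolynomial.X i : MvPolynomial (Fin k) R) (S (m i))) *
    ∏ i, ∏ j ∈ Ioi i,
      pairP (MvPolynomial.X i : MvPolynomial (Fin k) R) (MvPolynomial.X j) (m i) (m j)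

def S_par : Prop := ∀ (k : ℕ) (m : Fin k → ℕ), (∀ i, 1 ≤ m i) →
  W (Σ i : Fin k, Fin (m i)) (rot m) =
    ∑ d ∈ (P selfP k m).support with (∀ i, d i ≠ 2), MvPolynomial.coeff d (P selfP k m)

/-! ### Part 4: splitting into marked and unmarked cycles -/

/-- Polya's product: all graphs invariant under a permutation with ordered cycle type `m`. -/
def G0 (k : ℕ) (m : Fin k → ℕ) : R :=
  (∏ i, ((1 + x ^ m i) ^ ((m i - 1) / 2) * (if Even (m i) then 1 + x ^ (m i / 2) else 1))) *
    ∏ i, ∏ j ∈ Ioi i, (1 + x ^ Nat.lcm (m i) (m j)) ^ Nat.gcd (m i) (m j)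

/-- The factor of a marked cycle of length `l` in the presence of unmarked cycles `m`. -/
def Senv (k : ℕ) (m : Fin k → ℕ) (l : ℕ) : Polynomial R :=
  selfP l * ∏ i, pairP (Polynomial.X : Polynomial R) 1 l (m i)

/-- All marked cycles have degree `2`. -/
def Nx (S : ℕ → Polynomial R) (k : ℕ) (m : Fin k → ℕ) : R :=
  MvPolynomial.coeff (Finsupp.equivFunOnFinite.symm fun _ => 2) (P S k m)

def S_split : Prop := ∀ p : ℕ,
  T wp p (fun k m =>
    ∑ d ∈ (P selfP k m).support with (∀ i, d i ≠ 2), MvPolynomial.coeff d (P selfP k m)) =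
  ∑ n ∈ range (p + 1), T wp n (fun k m => G0 k m * T wm (p - n) (Nx (Senv k m)))

/-! ### Part 5: the generating function of the marked cycles -/

/-- One special cycle of length `l` with degree `1`, all others have degree `2`. -/
def N1 (S : ℕ → Polynomial R) (l k : ℕ) (m : Fin k → ℕ) : R :=
  MvPolynomial.coeff (Finsupp.equivFunOnFinite.symm (Fin.cons 1 fun _ => 2))
    (P S (k + 1) (Fin.cons l m))

/-- Two special cycles of length `l` with degree `1`, all others have degree `2`. -/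
def N11 (S : ℕ → Polynomial R) (l k : ℕ) (m : Fin k → ℕ) : R :=
  MvPolynomial.coeff (Finsupp.equivFunOnFinite.symm (Fin.cons 1 (Fin.cons 1 fun _ => 2)))
    (P S (k + 2) (Fin.cons l (Fin.cons l m)))

/-- One more cycle of length `l`, all cycles have degree `2`. -/
def N2 (S : ℕ → Polynomial R) (l k : ℕ) (m : Fin k → ℕ) : R :=
  Nx S (k + 1) (Fin.cons l m)

open PowerSeries in
/-- The generating function of a family. -/
def gf (g : (k : ℕ) → (Fin k → ℕ) → R) : PowerSeries R := PowerSeries.mk fun n => T wm n g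

/-- `ev l f` is `f` for even `l` and `0` for odd `l`. -/
def ev {A : Type*} [Zero A] (l : ℕ) (a : A) : A := if Even l then a else 0

/-- The monomial `x ^ a * z ^ b`. -/
def mon (a b : ℕ) : PowerSeries R := PowerSeries.C (x ^ a) * PowerSeries.X ^ b

/-- The relations between the four generating functions, for cycle length `l`. -/
def Rel (β γ : ℕ → R) (A : PowerSeries R) (B D C : ℕ → PowerSeries R) : Prop := ∀ l, 1 ≤ l →
  B l = PowerSeries.C (β l) * A - mon l l * B l - ev l (mon l (l / 2) * A) ∧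
  D l = PowerSeries.C (β l) * B l + PowerSeries.C ((l : R) * x ^ l) * A - mon l l * D l
    - ev l (mon l (l / 2) * B l) ∧
  C l = PowerSeries.C (γ l) * A
    - PowerSeries.C (β l) * (mon l l * B l + ev l (mon l (l / 2) * A))
    + (2⁻¹ : ℚ) • (mon (2 * l) (2 * l) * D l + 2 * ev l (mon (2 * l) (l + l / 2) * B l)
        + ev l (mon (2 * l) l * A))
    - (((l : ℚ) - 1) / 2) • (mon (2 * l) l * A)
    - (2⁻¹ : ℚ) • (mon (2 * l) (2 * l) * B (2 * l))

/-- The derivative relation. -/
def Der (A : PowerSeries R) (C : ℕ → PowerSeries R) : Prop := ∀ n : ℕ,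
  (n : R) * PowerSeries.coeff n A = -∑ l ∈ Icc 1 n, PowerSeries.coeff (n - l) (C l)

/-- Relations r1, r2, r3 for the concrete families. -/
def S_rel : Prop := ∀ S : ℕ → Polynomial R, (∀ l, (S l).coeff 0 = 1) →
  Rel (fun l => (S l).coeff 1) (fun l => (S l).coeff 2)
    (gf (Nx S)) (fun l => gf (N1 S l)) (fun l => gf (N11 S l)) (fun l => gf (N2 S l))

/-- The derivative relation for the concrete families. -/
def S_der : Prop := ∀ S : ℕ → Polynomial R, Der (gf (Nx S)) (fun l => gf (N2 S l))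

/-- The exponent belonging to cycle length `l`. -/
def Eg (β γ : ℕ → R) (l : ℕ) : PowerSeries R :=
  (2⁻¹ : ℚ) • mon l l - ((4 * l : ℚ)⁻¹) • mon (2 * l) (2 * l)
    - (2⁻¹ : ℚ) • PowerSeries.logOf (1 + mon l l)
    - ((2 * l : ℚ)⁻¹) • ((PowerSeries.C (β l) - ev l (mon l (l / 2))) ^ 2 * PowerSeries.X ^ l *
        PowerSeries.invOfUnit (1 + mon l l) 1)
    - ((l : ℚ)⁻¹) • (PowerSeries.C (γ l - (2⁻¹ : ℚ) • β l ^ 2) * PowerSeries.X ^ l)

/-- The solution of the system. -/
def S_ode : Prop := ∀ (β γ : ℕ → R) (A : PowerSeries R) (B D C : ℕ → PowerSeries R),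
  PowerSeries.constantCoeff A = 1 → Rel β γ A B D C → Der A C →
  ∀ N n : ℕ, n ≤ N →
    PowerSeries.coeff n A =
      PowerSeries.coeff n ((PowerSeries.exp R).subst (∑ l ∈ Icc 1 N, Eg β γ l))

/-! ### Part 6: the coefficients -/

/-- The number of points fixed by the `l`-th power of a permutation of ordered cycle type `m`. -/
def fx (k : ℕ) (m : Fin k → ℕ) (l : ℕ) : ℕ := ∑ i with m i ∣ l, m i

/-- Twice the number of pairs of points exchanged by the `l`-th power. -/
def sw (k : ℕ) (m : Fin k → ℕ) (l : ℕ) : ℕ := ∑ i with (m i ∣ 2 * l ∧ ¬ m i ∣ l), m i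

/-- The linear coefficient. -/
def bet (k : ℕ) (m : Fin k → ℕ) (l : ℕ) : R := (fx k m l : R) * x ^ l + ev l (x ^ (l / 2))

/-- The quadratic coefficient minus half the square of the linear one. -/
def gam (k : ℕ) (m : Fin k → ℕ) (l : ℕ) : R :=
  (((sw k m l : ℚ) - fx k m l) / 2) • x ^ (2 * l) + (((l - 1) / 2 : ℕ) : R) * x ^ l
    - (2⁻¹ : ℚ) • ev l (x ^ l)

def S_coef : Prop := ∀ (k : ℕ) (m : Fin k → ℕ), (∀ i, 1 ≤ m i) → ∀ l, 1 ≤ l →
  (Senv k m l).coeff 0 = 1 ∧ (Senv k m l).coeff 1 = bet k m l ∧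
  (Senv k m l).coeff 2 - (2⁻¹ : ℚ) • (Senv k m l).coeff 1 ^ 2 = gam k m l

end

end Pool.Agent.W871.HI
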