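import Pool.Agent.W871.HI.Defs

/-!
# MP_5f0aae_co: the solution of the system (S_ode)
-/

open Finset

namespace Pool.Agent.W871.HI

noncomputable section

open PowerSeries

/-- `z d/dz` -/
def th (F : PowerSeries R) : PowerSeries R := PowerSeries.X * d⁄dX R F

lemma th_add (F G : PowerSeries R) : th (F + G) = th F + th G := by
  simp [th, mul_add]

lemma th_sub (F G : PowerSeries R) : th (F - G) = th F - th G := by
  simp [th, mul_sub]

lemma th_mul (F G : PowerSeries R) : th (F * G) = th F * G + F * th G := by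
  simp [th]; ring

lemma th_C (r : R) : th (PowerSeries.C r) = 0 := by simp [th]

lemma algMap_eq (c : ℚ) : algebraMap ℚ (PowerSeries R) c = PowerSeries.C (algebraMap ℚ R c) := PowerSeries.algebraMap_apply

lemma th_algMap (c : ℚ) : th (algebraMap ℚ (PowerSeries R) c) = 0 := by
  rw [algMap_eq, th_C]

lemma th_smul (c : ℚ) (F : PowerSeries R) : th (c • F) = c • th F := by
  rw [Algebra.smul_def, Algebra.smul_def, th_mul, th_algMap, zero_mul, zero_add]

lemma th_pow (b : ℕ) : th (PowerSeries.X ^ b) = (b : PowerSeries R) * PowerSeries.X ^ b := by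
  unfold th
  rw [PowerSeries.derivative_pow]
  simp only [PowerSeries.derivative_X, mul_one]
  rcases b with _ | b
  · simp
  · simp; ring

lemma th_mon (a b : ℕ) : th (mon a b) = (b : PowerSeries R) * mon a b := by
  unfold mon
  rw [th_mul, th_C, th_pow]; ring

lemma coeff_th (F : PowerSeries R) (n : ℕ) : PowerSeries.coeff n (th F) = (n : R) * PowerSeries.coeff n F := by
  unfold th
  rcases n with _ | n
  · simp
  · rw [PowerSeries.coeff_succ_X_mul, PowerSeries.coeff_derivative]
    push_cast; ring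

lemma th_inv (U I : PowerSeries R) (h : (1 + U) * I = 1) : th I = - (I ^ 2 * th U) := by
  have h1 : th ((1 + U) * I) = 0 := by rw [h]; simp [th]
  rw [th_mul, th_add] at h1
  have h0 : th (1 : PowerSeries R) = 0 := by simp [th]
  rw [h0] at h1
  linear_combination I * h1 - th I * h

lemma th_log (U I : PowerSeries R) (hU : PowerSeries.constantCoeff U = 0) (h : (1 + U) * I = 1) :
    th (PowerSeries.logOf (1 + U)) = I * th U := by
  have hs : PowerSeries.HasSubst U := PowerSeries.HasSubst.of_constantCoeff_zero' hU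
  have h1 : PowerSeries.logOf (1 + U) = (PowerSeries.log R).subst U := by
    rw [PowerSeries.logOf_eq]; congr 1; ring
  have h2 : (1 + PowerSeries.X : PowerSeries R) * (PowerSeries.mk fun n ↦ algebraMap ℚ R ((-1 : ℚ) ^ n)) = 1 := by
    ext n
    rcases n with _ | n
    · simp [add_mul]
    · rw [add_mul, one_mul, map_add, PowerSeries.coeff_succ_X_mul]
      simp [PowerSeries.coeff_one, pow_succ]
  have h3 : (1 + U) * ((PowerSeries.mk fun n ↦ algebraMap ℚ R ((-1 : ℚ) ^ n)).subst U : PowerSeries R) = 1 := by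
    have := congrArg (fun F : PowerSeries R => (F.subst U : PowerSeries R)) h2
    simp only [PowerSeries.subst_mul hs, PowerSeries.subst_add hs, PowerSeries.subst_X hs] at this
    have h1' : ((1 : PowerSeries R).subst U : PowerSeries R) = 1 := by
      rw [← PowerSeries.coe_substAlgHom hs, map_one]
    rw [h1'] at this
    exact this
  have h4 : ((PowerSeries.mk fun n ↦ algebraMap ℚ R ((-1 : ℚ) ^ n)).subst U : PowerSeries R) = I := by
    linear_combination I * h3 - ((PowerSeries.mk fun n ↦ algebraMap ℚ R ((-1 : ℚ) ^ n)).subst U : PowerSeries R) * h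
  rw [h1]
  unfold th
  rw [PowerSeries.derivative_subst hs, PowerSeries.deriv_log, h4]
  ring

lemma th_exp (E : PowerSeries R) (hE : PowerSeries.constantCoeff E = 0) :
    th ((PowerSeries.exp R).subst E) = ((PowerSeries.exp R).subst E : PowerSeries R) * th E := by
  have hs : PowerSeries.HasSubst E := PowerSeries.HasSubst.of_constantCoeff_zero' hE
  unfold th
  rw [PowerSeries.derivative_subst hs, PowerSeries.derivative_exp]
  ring


/-! ### The logarithmic derivative -/

/-- `z^l` times the coefficient belonging to `l`. -/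
def cc (β γ : ℕ → R) (l : ℕ) : PowerSeries R :=
  PowerSeries.X ^ l * (PowerSeries.C (γ l - (2⁻¹ : ℚ) • β l ^ 2)
    + (2⁻¹ : ℚ) • ((PowerSeries.C (β l) - ev l (mon l (l / 2))) ^ 2 *
        PowerSeries.invOfUnit (1 + mon l l) 1 ^ 2)
    - (2⁻¹ : ℚ) • (ev l (mon l (l / 2)) * (PowerSeries.C (β l) - ev l (mon l (l / 2))) *
        PowerSeries.invOfUnit (1 + mon l l) 1)
    + ((l : ℚ) / 2) • (PowerSeries.C (x ^ l) * mon l l ^ 2 * PowerSeries.invOfUnit (1 + mon l l) 1)
    - (((l : ℚ) - 1) / 2) • (PowerSeries.C (x ^ l) * mon l l))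

lemma const_mon (a b : ℕ) (hb : 1 ≤ b) : PowerSeries.constantCoeff (mon a b) = 0 := by
  unfold mon
  simp [show b ≠ 0 by omega]

lemma inv_mon (l : ℕ) (hl : 1 ≤ l) : (1 + mon l l) * PowerSeries.invOfUnit (1 + mon l l) 1 = 1 :=
  PowerSeries.mul_invOfUnit _ _ (by simp [const_mon l l hl])

lemma th_ev (l : ℕ) : th (ev l (mon l (l / 2))) = ((l : ℚ) / 2) • ev l (mon l (l / 2)) := by
  unfold ev
  split_ifs with h
  · obtain ⟨j, rfl⟩ := h
    have h1 : (j + j) / 2 = j := by omega
    rw [h1, th_mon, Algebra.smul_def]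
    congr 1
    push_cast
    rw [show ((j : ℚ) + j) / 2 = j by ring]
    simp
  · simp [th]

lemma th_Eg (β γ : ℕ → R) (l : ℕ) (hl : 1 ≤ l) : th (Eg β γ l) = -cc β γ l := by
  have hI := inv_mon l hl
  have hlog := th_log (mon l l) _ (const_mon l l hl) hI
  have hinv := th_inv (mon l l) _ hI
  have hm2 : mon (2 * l) (2 * l) = mon l l * mon l l := by
    unfold mon; rw [mul_mul_mul_comm, ← map_mul, ← pow_add, ← pow_add]; congr 2 <;> ring
  have he := th_ev l
  have hu : mon l l = PowerSeries.C (x ^ l) * PowerSeries.X ^ l := rfl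
  unfold Eg cc
  rw [hm2]
  simp only [th_sub, th_mul, th_smul, th_C, th_pow, hlog, hinv, he, pow_two, th_mon]
  set u := mon l l
  set e := ev l (mon l (l / 2))
  set I := PowerSeries.invOfUnit (1 + u) 1
  set g' : PowerSeries R := PowerSeries.C (γ l - (2⁻¹ : ℚ) • (β l * β l))
  set b : PowerSeries R := PowerSeries.C (β l)
  set Z : PowerSeries R := PowerSeries.X ^ l
  set XL : PowerSeries R := PowerSeries.C (x ^ l)
  set L : PowerSeries R := (l : PowerSeries R)
  have hlq : (l : ℚ) ≠ 0 := by exact_mod_cast (show l ≠ 0 by omega)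
  set h : PowerSeries R := algebraMap ℚ (PowerSeries R) (2⁻¹)
  set k : PowerSeries R := algebraMap ℚ (PowerSeries R) ((l : ℚ)⁻¹)
  have hL : algebraMap ℚ (PowerSeries R) (l : ℚ) = L := map_natCast _ l
  have h2 : 2 * h = 1 := by
    have : (2 : PowerSeries R) = algebraMap ℚ (PowerSeries R) 2 := (map_ofNat _ 2).symm
    rw [this, ← map_mul]; norm_num
  have hk : L * k = 1 := by
    rw [← hL, ← map_mul, mul_inv_cancel₀ hlq, map_one]
  have e1 : algebraMap ℚ (PowerSeries R) ((4 * (l : ℚ))⁻¹) = h * h * k := by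
    rw [← map_mul, ← map_mul]; congr 1; field_simp; norm_num
  have e2 : algebraMap ℚ (PowerSeries R) ((2 * (l : ℚ))⁻¹) = h * k := by
    rw [← map_mul]; congr 1; field_simp
  have e3 : algebraMap ℚ (PowerSeries R) ((l : ℚ) / 2) = L * h := by
    rw [← hL, ← map_mul]; congr 1
  have e4 : algebraMap ℚ (PowerSeries R) (((l : ℚ) - 1) / 2) = (L - 1) * h := by
    rw [← hL, ← map_one (algebraMap ℚ (PowerSeries R)), ← map_sub, ← map_mul]; congr 1
  simp only [Algebra.smul_def, e1, e2, e3, e4]
  change _ = _ at hu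
  linear_combination (-h * L * u + h * (b - e) ^ 2 * Z * I + h * L * u ^ 2) * hI +
    (-h * u ^ 2 * L * k + h * (b - e) * e * Z * I * L * k) * h2 +
    (-h * u ^ 2 + h * (b - e) * e * Z * I - h * (b - e) ^ 2 * Z * (I - I ^ 2 * u) - g' * Z) * hk +
    (-(L * h * u ^ 2 * I) + (L - 1) * h * u) * hu

lemma mon_mul (a b c d : ℕ) : mon a b * mon c d = mon (a + c) (b + d) := by
  unfold mon; rw [mul_mul_mul_comm, ← map_mul, ← pow_add, ← pow_add]

lemma ev_mul (l : ℕ) (a b : PowerSeries R) : ev l (a * b) = ev l a * b := by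
  unfold ev; split_ifs <;> simp

lemma ev_mul' (l : ℕ) (a b : PowerSeries R) : ev l (a * b) = a * ev l b := by
  unfold ev; split_ifs <;> simp

lemma rel_B {β γ : ℕ → R} {A : PowerSeries R} {B D C : ℕ → PowerSeries R} (hR : Rel β γ A B D C)
    (l : ℕ) (hl : 1 ≤ l) : B l = (PowerSeries.C (β l) - ev l (mon l (l / 2))) *
      PowerSeries.invOfUnit (1 + mon l l) 1 * A := by
  have h := (hR l hl).1
  rw [ev_mul] at h
  have hI := inv_mon l hl
  linear_combination PowerSeries.invOfUnit (1 + mon l l) 1 * h - B l * hI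

lemma rel_D {β γ : ℕ → R} {A : PowerSeries R} {B D C : ℕ → PowerSeries R} (hR : Rel β γ A B D C)
    (l : ℕ) (hl : 1 ≤ l) : D l = (PowerSeries.C (β l) - ev l (mon l (l / 2))) ^ 2 *
      PowerSeries.invOfUnit (1 + mon l l) 1 ^ 2 * A +
      (l : PowerSeries R) * PowerSeries.C (x ^ l) * PowerSeries.invOfUnit (1 + mon l l) 1 * A := by
  have h := (hR l hl).2.1
  rw [ev_mul, rel_B hR l hl] at h
  have hI := inv_mon l hl
  have hc : (PowerSeries.C ((l : R) * x ^ l) : PowerSeries R) = (l : PowerSeries R) * PowerSeries.C (x ^ l) := by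
    simp
  rw [hc] at h
  linear_combination PowerSeries.invOfUnit (1 + mon l l) 1 * h - D l * hI

lemma rel_C {β γ : ℕ → R} {A : PowerSeries R} {B D C : ℕ → PowerSeries R} (hR : Rel β γ A B D C)
    (l : ℕ) (hl : 1 ≤ l) : PowerSeries.X ^ l * C l = cc β γ l * A
      + (2⁻¹ : ℚ) • (PowerSeries.X ^ l * ev l (mon l (l / 2)) * B l)
      - (2⁻¹ : ℚ) • (PowerSeries.X ^ (2 * l) * ev (2 * l) (mon (2 * l) (2 * l / 2)) * B (2 * l)) := by
  have h := (hR l hl).2.2
  have h3 : (PowerSeries.X : PowerSeries R) ^ (2 * l) * ev (2 * l) (mon (2 * l) (2 * l / 2)) =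
      PowerSeries.X ^ l * mon (2 * l) (2 * l) := by
    have : Even (2 * l) := even_two_mul l
    simp only [ev, this, if_true]
    rw [show 2 * l / 2 = l by omega]
    unfold mon
    ring
  rw [h3]
  have g1 : ev l (mon (2 * l) (l + l / 2) * B l) = mon l l * ev l (mon l (l / 2)) * B l := by
    rw [ev_mul, ← ev_mul', mon_mul, two_mul]
  have g2 : ev l (mon (2 * l) l * A) = ev l (mon l (l / 2)) ^ 2 * A := by
    unfold ev
    split_ifs with hev
    · obtain ⟨j, rfl⟩ := hev
      rw [pow_two, mon_mul, show (j + j) / 2 = j by omega, ← two_mul (j + j)]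
    · simp
  have g3 : mon (2 * l) (2 * l) = mon l l * mon l l := by
    rw [mon_mul, two_mul]
  have g4 : mon (2 * l) l = PowerSeries.C (x ^ l) * mon l l := by
    unfold mon; rw [← mul_assoc, ← map_mul, ← pow_add, two_mul]
  have g5 : ev l (mon l (l / 2) * A) = ev l (mon l (l / 2)) * A := ev_mul _ _ _
  rw [g1, g2, g5] at h
  rw [g3] at h ⊢
  rw [g4] at h
  rw [h, rel_D hR l hl, rel_B hR l hl]
  have hI := inv_mon l hl
  unfold cc
  rw [map_sub (PowerSeries.C : R →+* PowerSeries R) (γ l)]
  have hc : (PowerSeries.C ((2⁻¹ : ℚ) • β l ^ 2) : PowerSeries R) =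
      algebraMap ℚ (PowerSeries R) (2⁻¹) * PowerSeries.C (β l) ^ 2 := by
    rw [Algebra.smul_def, map_mul, map_pow, algMap_eq]
  rw [hc]
  set u := mon l l
  set e := ev l (mon l (l / 2))
  set I := PowerSeries.invOfUnit (1 + u) 1
  set g : PowerSeries R := PowerSeries.C (γ l)
  set b : PowerSeries R := PowerSeries.C (β l)
  set Z : PowerSeries R := PowerSeries.X ^ l
  set XL : PowerSeries R := PowerSeries.C (x ^ l)
  set L : PowerSeries R := (l : PowerSeries R)
  set h : PowerSeries R := algebraMap ℚ (PowerSeries R) (2⁻¹)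
  have hL : algebraMap ℚ (PowerSeries R) (l : ℚ) = L := map_natCast _ l
  have h2 : 2 * h = 1 := by
    have : (2 : PowerSeries R) = algebraMap ℚ (PowerSeries R) 2 := (map_ofNat _ 2).symm
    rw [this, ← map_mul]; norm_num
  have e3 : algebraMap ℚ (PowerSeries R) ((l : ℚ) / 2) = L * h := by
    rw [← hL, ← map_mul]; congr 1
  have e4 : algebraMap ℚ (PowerSeries R) (((l : ℚ) - 1) / 2) = (L - 1) * h := by
    rw [← hL, ← map_one (algebraMap ℚ (PowerSeries R)), ← map_sub, ← map_mul]; congr 1
  simp only [Algebra.smul_def, e3, e4]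
  change _ = _ at h2
  linear_combination A * Z * (((b - e) * e + e ^ 2 + u * e * (b - e) * I + u * I * (b - e) ^ 2) * h2 -
    h * (b - e) ^ 2 * (1 - u * I + I) * hI)


lemma const_Eg (β γ : ℕ → R) (l : ℕ) (hl : 1 ≤ l) : PowerSeries.constantCoeff (Eg β γ l) = 0 := by
  have h1 := const_mon l l hl
  have h2 := const_mon (2 * l) (2 * l) (by omega)
  have h3 : PowerSeries.constantCoeff (PowerSeries.logOf (1 + mon l l)) = 0 :=
    PowerSeries.constantCoeff_logOf (by simp [h1])
  unfold Eg
  simp only [Algebra.smul_def, map_sub, map_mul, map_pow, h1, h2, h3, PowerSeries.constantCoeff_X]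
  rw [zero_pow (by omega)]
  ring

lemma const_exp (E : PowerSeries R) (hE : PowerSeries.constantCoeff E = 0) :
    PowerSeries.constantCoeff ((PowerSeries.exp R).subst E : PowerSeries R) = 1 := by
  have hs : PowerSeries.HasSubst E := PowerSeries.HasSubst.of_constantCoeff_zero' hE
  have h1 : PowerSeries.constantCoeff ((PowerSeries.exp R - 1).subst E : PowerSeries R) = 0 :=
    PowerSeries.constantCoeff_subst_eq_zero hE _ (by simp)
  have h2 : ((PowerSeries.exp R).subst E : PowerSeries R) =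
      ((PowerSeries.exp R - 1).subst E : PowerSeries R) + 1 := by
    have h1' : ((1 : PowerSeries R).subst E : PowerSeries R) = 1 := by
      rw [← PowerSeries.coe_substAlgHom hs, map_one]
    conv_lhs => rw [show PowerSeries.exp R = (PowerSeries.exp R - 1) + 1 by ring]
    rw [PowerSeries.subst_add hs, h1']
  rw [h2, map_add, h1]; simp

lemma sum_even (N : ℕ) (f : ℕ → R) (h1 : ∀ l, N < l → f l = 0) (h2 : ∀ l, ¬ Even l → f l = 0) :
    ∑ l ∈ Icc 1 N, f (2 * l) = ∑ l ∈ Icc 1 N, f l := by
  have e1 : ∑ l ∈ Icc 1 N, f (2 * l) = ∑ l ∈ (Icc 1 N).image (2 * ·), f l := by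
    rw [Finset.sum_image]
    intro a _ b _ hab
    simpa using hab
  rw [e1]
  have e2 : ∑ l ∈ (Icc 1 N).image (2 * ·), f l = ∑ l ∈ Icc 1 (2 * N), f l := by
    apply Finset.sum_subset
    · intro a ha
      simp only [mem_image, mem_Icc] at ha ⊢
      obtain ⟨b, hb, rfl⟩ := ha
      omega
    · intro a ha ha'
      apply h2
      rintro ⟨j, rfl⟩
      apply ha'
      simp only [mem_image, mem_Icc] at ha ⊢
      exact ⟨j, by omega, by omega⟩
  rw [e2]
  symm
  apply Finset.sum_subset
  · intro a ha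
    simp only [mem_Icc] at ha ⊢
    omega
  · intro a ha ha'
    apply h1
    simp only [mem_Icc] at ha ha'
    omega

lemma th_A {β γ : ℕ → R} {A : PowerSeries R} {B D C : ℕ → PowerSeries R} (hR : Rel β γ A B D C)
    (hD : Der A C) (N n : ℕ) (hn : n ≤ N) :
    (n : R) * PowerSeries.coeff n A = -PowerSeries.coeff n ((∑ l ∈ Icc 1 N, cc β γ l) * A) := by
  rw [hD n]
  congr 1
  have h1 : ∑ l ∈ Icc 1 n, PowerSeries.coeff (n - l) (C l) =
      ∑ l ∈ Icc 1 N, PowerSeries.coeff n (PowerSeries.X ^ l * C l) := by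
    rw [← Finset.sum_subset (Finset.Icc_subset_Icc_right hn)]
    · apply Finset.sum_congr rfl
      intro l hl
      rw [PowerSeries.coeff_X_pow_mul', if_pos (Finset.mem_Icc.1 hl).2]
    · intro l hl hl'
      rw [PowerSeries.coeff_X_pow_mul', if_neg]
      simp only [mem_Icc] at hl hl'
      omega
  rw [h1]
  have h2 : ∀ l ∈ Icc 1 N, PowerSeries.coeff n (PowerSeries.X ^ l * C l) =
      PowerSeries.coeff n (cc β γ l * A)
      + ((2⁻¹ : ℚ) • PowerSeries.coeff n (PowerSeries.X ^ l * ev l (mon l (l / 2)) * B l)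
      - (2⁻¹ : ℚ) • PowerSeries.coeff n (PowerSeries.X ^ (2 * l) *
        ev (2 * l) (mon (2 * l) (2 * l / 2)) * B (2 * l))) := by
    intro l hl
    rw [rel_C hR l (Finset.mem_Icc.1 hl).1]
    have hs : ∀ F : PowerSeries R, PowerSeries.coeff n ((2⁻¹ : ℚ) • F) =
        (2⁻¹ : ℚ) • PowerSeries.coeff n F := by
      intro F
      rw [Algebra.smul_def, algMap_eq, PowerSeries.coeff_C_mul, Algebra.smul_def]
    rw [map_sub, map_add, hs, hs]
    ring
  rw [Finset.sum_congr rfl h2, Finset.sum_add_distrib, Finset.sum_sub_distrib, ← Finset.smul_sum,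
    ← Finset.smul_sum, sum_even N (fun l => PowerSeries.coeff n (PowerSeries.X ^ l *
        ev l (mon l (l / 2)) * B l)), sub_self, add_zero, Finset.sum_mul, map_sum]
  · intro l hl
    rw [mul_assoc, PowerSeries.coeff_X_pow_mul', if_neg (by omega)]
  · intro l hl
    simp [ev, hl]

lemma coeff_cc_zero (β γ : ℕ → R) (l : ℕ) (hl : 1 ≤ l) : PowerSeries.coeff 0 (cc β γ l) = 0 := by
  unfold cc
  rw [PowerSeries.coeff_X_pow_mul', if_neg (by omega)]

theorem ode : S_ode := by
  intro β γ A B D C hA hR hD N n hn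
  have hE : PowerSeries.constantCoeff (∑ l ∈ Icc 1 N, Eg β γ l) = 0 := by
    rw [map_sum]
    exact Finset.sum_eq_zero fun l hl => const_Eg β γ l (Finset.mem_Icc.1 hl).1
  set F : PowerSeries R := (PowerSeries.exp R).subst (∑ l ∈ Icc 1 N, Eg β γ l) with hF
  have hthE : th (∑ l ∈ Icc 1 N, Eg β γ l) = - ∑ l ∈ Icc 1 N, cc β γ l := by
    have : ∀ s : Finset ℕ, (∀ l ∈ s, 1 ≤ l) → th (∑ l ∈ s, Eg β γ l) = - ∑ l ∈ s, cc β γ l := by
      intro s
      induction s using Finset.induction_on with
      | empty => intro _; simp [th]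
      | insert a s ha ih =>
        intro hs
        rw [Finset.sum_insert ha, Finset.sum_insert ha, th_add,
          th_Eg β γ a (hs a (Finset.mem_insert_self a s)),
          ih (fun l hl => hs l (Finset.mem_insert_of_mem hl))]
        ring
    exact this _ fun l hl => (Finset.mem_Icc.1 hl).1
  have hthF : ∀ m : ℕ, (m : R) * PowerSeries.coeff m F =
      -PowerSeries.coeff m ((∑ l ∈ Icc 1 N, cc β γ l) * F) := by
    intro m
    rw [← coeff_th, th_exp _ hE, hthE, ← hF, ← map_neg]
    congr 1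
    ring
  have h0 : PowerSeries.coeff 0 (∑ l ∈ Icc 1 N, cc β γ l) = 0 := by
    rw [map_sum]
    exact Finset.sum_eq_zero fun l hl => coeff_cc_zero β γ l (Finset.mem_Icc.1 hl).1
  revert hn
  induction n using Nat.strong_induction_on with
  | _ n ih =>
    intro hn
    rcases Nat.eq_zero_or_pos n with rfl | hpos
    · rw [PowerSeries.coeff_zero_eq_constantCoeff, hA, hF, const_exp _ hE]
    · have h1 := th_A hR hD N n hn
      have h2 := hthF n
      have h3 : PowerSeries.coeff n ((∑ l ∈ Icc 1 N, cc β γ l) * A) =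
          PowerSeries.coeff n ((∑ l ∈ Icc 1 N, cc β γ l) * F) := by
        rw [PowerSeries.coeff_mul, PowerSeries.coeff_mul]
        apply Finset.sum_congr rfl
        intro p hp
        rw [Finset.HasAntidiagonal.mem_antidiagonal] at hp
        rcases Nat.eq_zero_or_pos p.1 with hp1 | hp1
        · rw [hp1, h0]; simp
        · rw [ih p.2 (by omega) (by omega)]
      rw [h3, ← h2] at h1
      have hn0 : (n : R) ≠ 0 := by exact_mod_cast (show n ≠ 0 by omega)
      exact mul_left_cancel₀ hn0 h1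

end

end Pool.Agent.W871.HI
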