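import Pool.Agent.W871.HI.Rel
import Pool.Agent.W871.HI.Ode

/-!
# MP_5f0aae_co: assembly
-/

open Finset

namespace Pool.Agent.W871.HI

noncomputable section

/-- The exponent: explicit form. -/
def Ex (k : ℕ) (m : Fin k → ℕ) (l : ℕ) : PowerSeries R :=
  (2⁻¹ : ℚ) • mon l l - ((4 * l : ℚ)⁻¹) • mon (2 * l) (2 * l)
    - (2⁻¹ : ℚ) • PowerSeries.logOf (1 + mon l l)
    - ((2 * l : ℚ)⁻¹) • ((PowerSeries.C (bet k m l) - ev l (mon l (l / 2))) ^ 2 *
        PowerSeries.X ^ l * PowerSeries.invOfUnit (1 + mon l l) 1)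
    - ((l : ℚ)⁻¹) • (PowerSeries.C (gam k m l) * PowerSeries.X ^ l)

def S_fin : Prop := ∀ p : ℕ, ∑ q ∈ range (p.choose 2 + 1), (h p q : R) * x ^ q =
  ∑ n ∈ range (p + 1), T wp n (fun k m => G0 k m *
    PowerSeries.coeff (p - n) ((PowerSeries.exp R).subst (∑ l ∈ Icc 1 p, Ex k m l)))

theorem split (hbin : S_bin) (hfac : S_fac) : S_split := by
  intro p
  have h := hbin (fun k m k' m' => G0 k m * Nx (Senv k m) k' m') p
  simp only [T_mul] at h
  rw [← h]
  exact T_congr _ _ fun k m _ => hfac k m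

lemma Inv_iso {V V' : Type*} {e : V ≃ V'} {σ : Equiv.Perm V} {G : SimpleGraph V'} :
    Inv (e.permCongr σ) G ↔ Inv σ (G.comap e) := by
  unfold Inv
  constructor
  · intro h a b
    have := h (e a) (e b)
    simpa [Equiv.permCongr_apply] using this
  · intro h a b
    have := h (e.symm a) (e.symm b)
    simpa [Equiv.permCongr_apply] using this

lemma NoTwo_iso {V V' : Type*} {G : SimpleGraph V} {G' : SimpleGraph V'} (f : G ≃g G') :
    NoTwo G ↔ NoTwo G' := by
  have key : ∀ v, (G'.neighborSet (f v)).ncard = (G.neighborSet v).ncard := by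
    intro v
    exact (Nat.card_congr (f.mapNeighborSet v)).symm
  unfold NoTwo
  constructor
  · intro h v
    rw [← f.apply_symm_apply v, key]
    exact h _
  · intro h v
    rw [← key]
    exact h _

lemma ncard_edge_iso {V V' : Type*} {G : SimpleGraph V} {G' : SimpleGraph V'} (f : G ≃g G') :
    G.edgeSet.ncard = G'.edgeSet.ncard := Nat.card_congr f.mapEdgeSet

lemma W_nat (V V' : Type) (e : V ≃ V') (σ : Equiv.Perm V) :
    W V' (e.permCongr σ) = W V σ := by
  unfold W
  symm
  apply finsum_mem_eq_of_bijOn (fun G => G.comap e.symm)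
  · refine ⟨?_, ?_, ?_⟩
    · rintro G ⟨h1, h2⟩
      refine ⟨?_, ?_⟩
      · rw [Inv_iso]
        have : (G.comap e.symm).comap e = G := by
          ext a b; simp
        rw [this]; exact h1
      · exact (NoTwo_iso (SimpleGraph.Iso.comap e.symm G)).2 h2
    · intro G _ G' _ h
      have := congrArg (fun H : SimpleGraph V' => H.comap e) h
      ext a b
      have := congrArg (fun H : SimpleGraph V => H.Adj a b) this
      simpa using this
    · rintro G ⟨h1, h2⟩
      refine ⟨G.comap e, ⟨Inv_iso.1 h1, (NoTwo_iso (SimpleGraph.Iso.comap e G)).2 h2⟩, ?_⟩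
      ext a b; simp
  · intro G _
    exact congrArg (x ^ ·) (ncard_edge_iso (SimpleGraph.Iso.comap e.symm G)).symm

lemma Senv_zero (k : ℕ) (m : Fin k → ℕ) (hm : ∀ i, 1 ≤ m i) (l : ℕ) :
    (Senv k m l).coeff 0 = 1 := by
  rw [Polynomial.coeff_zero_eq_eval_zero]
  unfold Senv selfP pairP
  rw [Polynomial.eval_mul, Polynomial.eval_mul, Polynomial.eval_prod, Finset.prod_eq_one]
  · split_ifs <;> simp
  · intro i _
    have h1 : m i / Nat.gcd l (m i) ≠ 0 := by
      have h2 := Nat.gcd_pos_of_pos_right l (hm i)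
      have h3 := Nat.gcd_le_right l (hm i)
      exact (Nat.div_pos h3 h2).ne'
    simp [h1]

lemma T_zero_Nx (S : ℕ → Polynomial R) : T wm 0 (Nx S) = 1 := by
  unfold T
  rw [Finset.sum_range_one]
  have h1 : tup 0 0 = {fun _ => 0} := by
    ext m
    rw [mem_tup, Finset.mem_singleton]
    constructor
    · intro _; exact Subsingleton.elim _ _
    · intro _; simp
  rw [h1, Finset.sum_singleton]
  have h2 : (Finsupp.equivFunOnFinite.symm fun _ => 2 : Fin 0 →₀ ℕ) = 0 := Subsingleton.elim _ _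
  unfold Nx P
  rw [h2]
  simp

theorem fin (hburn : S_burn) (hcyc : S_cyc) (hpar : S_par) (hsplit : S_split) (hrel : S_rel)
    (hder : S_der) (hode : S_ode) (hcoef : S_coef) : S_fin := by
  intro p
  rw [hburn p, hcyc W W_nat p]
  have e1 : T wp p (fun k m => W (Σ i : Fin k, Fin (m i)) (rot m)) = T wp p (fun k m =>
    ∑ d ∈ (P selfP k m).support with (∀ i, d i ≠ 2), MvPolynomial.coeff d (P selfP k m)) :=
    T_congr _ _ fun k m hm => hpar k m hm
  rw [e1, hsplit p]
  refine sum_congr rfl fun n _ => T_congr _ _ fun k m hm => ?_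
  congr 1
  have h0 : ∀ l, (Senv k m l).coeff 0 = 1 := Senv_zero k m hm
  have h1 : PowerSeries.constantCoeff (gf (Nx (Senv k m))) = 1 := by
    rw [← PowerSeries.coeff_zero_eq_constantCoeff_apply]
    simp only [gf, PowerSeries.coeff_mk]
    exact T_zero_Nx _
  have h2 := hode (fun l => (Senv k m l).coeff 1) (fun l => (Senv k m l).coeff 2)
    (gf (Nx (Senv k m))) (fun l => gf (N1 (Senv k m) l)) (fun l => gf (N11 (Senv k m) l))
    (fun l => gf (N2 (Senv k m) l)) h1 (hrel (Senv k m) h0) (hder (Senv k m)) p (p - n) (Nat.sub_le p n)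
  have h3 : PowerSeries.coeff (p - n) (gf (Nx (Senv k m))) = T wm (p - n) (Nx (Senv k m)) := by
    simp only [gf, PowerSeries.coeff_mk]
  have h5 : ∑ l ∈ Icc 1 p, Eg (fun l => (Senv k m l).coeff 1) (fun l => (Senv k m l).coeff 2) l =
      ∑ l ∈ Icc 1 p, Ex k m l := by
    refine sum_congr rfl fun l hl => ?_
    have h4 := hcoef k m hm l (mem_Icc.1 hl).1
    have h6 := h4.2.1
    have h7 := h4.2.2
    unfold Eg Ex
    beta_reduce
    rw [h7, h6]
  rw [← h3, h2, h5]

end

end Pool.Agent.W871.HI
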