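import Pool.Agent.W871.HI.Stm3

/-!
# MP_5f0aae_co: the relations and the derivative relation for the generating functions
-/

open Finset

namespace Pool.Agent.W871.HI

noncomputable section

lemma mem_tup {k n : ℕ} {m : Fin k → ℕ} : m ∈ tup k n ↔ (∀ i, 1 ≤ m i) ∧ ∑ i, m i = n := by
  unfold tup
  rw [mem_filter, Fintype.mem_piFinset]
  constructor
  · rintro ⟨h1, h2⟩
    exact ⟨fun i => (mem_Icc.1 (h1 i)).1, h2⟩
  · rintro ⟨h1, h2⟩
    refine ⟨fun i => mem_Icc.2 ⟨h1 i, ?_⟩, h2⟩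
    rw [← h2]
    exact Finset.single_le_sum (f := m) (fun _ _ => Nat.zero_le _) (mem_univ i)

lemma T_congr (w : ℕ → ℚ) (n : ℕ) {g g' : (k : ℕ) → (Fin k → ℕ) → R}
    (h : ∀ k m, (∀ i, 1 ≤ m i) → g k m = g' k m) : T w n g = T w n g' := by
  unfold T
  refine sum_congr rfl fun k _ => sum_congr rfl fun m hm => ?_
  rw [h k m (mem_tup.1 hm).1]

lemma T_add (w : ℕ → ℚ) (n : ℕ) (g g' : (k : ℕ) → (Fin k → ℕ) → R) :
    T w n (fun k m => g k m + g' k m) = T w n g + T w n g' := by
  unfold T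
  simp only [smul_add, sum_add_distrib]

lemma T_mul (w : ℕ → ℚ) (n : ℕ) (c : R) (g : (k : ℕ) → (Fin k → ℕ) → R) :
    T w n (fun k m => c * g k m) = c * T w n g := by
  unfold T
  simp only [mul_sum, mul_smul_comm]

lemma gf_congr {g g' : (k : ℕ) → (Fin k → ℕ) → R}
    (h : ∀ k m, (∀ i, 1 ≤ m i) → g k m = g' k m) : gf g = gf g' := by
  ext1 n
  simp only [gf, PowerSeries.coeff_mk]
  exact T_congr _ _ h

lemma gf_add (g g' : (k : ℕ) → (Fin k → ℕ) → R) :
    gf (fun k m => g k m + g' k m) = gf g + gf g' := by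
  ext1 n
  simp only [gf, PowerSeries.coeff_mk, map_add, T_add]

lemma gf_mul (c : R) (g : (k : ℕ) → (Fin k → ℕ) → R) :
    gf (fun k m => c * g k m) = PowerSeries.C c * gf g := by
  ext1 n
  rw [PowerSeries.coeff_C_mul]
  simp only [gf, PowerSeries.coeff_mk, T_mul]

lemma gf_rm (h : S_rem) (a : ℕ) (ha : 1 ≤ a) (g : (k : ℕ) → (Fin k → ℕ) → R) :
    gf (rm a g) = wm a • (PowerSeries.X ^ a * gf g) := by
  ext1 n
  rw [Algebra.smul_def, PowerSeries.algebraMap_apply, PowerSeries.coeff_C_mul,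
    PowerSeries.coeff_X_pow_mul']
  simp only [gf, PowerSeries.coeff_mk]
  rw [h g a n ha]
  split_ifs
  · rw [Algebra.smul_def]
  · simp

lemma gf_rm' (h : S_rem) (a : ℕ) (ha : 1 ≤ a) (g : (k : ℕ) → (Fin k → ℕ) → R) :
    (a : PowerSeries R) * gf (rm a g) = - (PowerSeries.X ^ a * gf g) := by
  rw [gf_rm h a ha, Algebra.smul_def, ← mul_assoc, ← map_natCast (algebraMap ℚ (PowerSeries R)) a,
    ← map_mul]
  have : (a : ℚ) * wm a = -1 := by
    unfold wm
    have : (a : ℚ) ≠ 0 := by exact_mod_cast (show a ≠ 0 by omega)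
    field_simp
  rw [this]; simp

lemma gf_ev (l : ℕ) (g : (k : ℕ) → (Fin k → ℕ) → R) :
    gf (fun k m => ev l (g k m)) = ev l (gf g) := by
  unfold ev
  split_ifs
  · rfl
  · ext1 n
    simp [gf, T]

theorem rel (hrem : S_rem) (hc1 : S_c1) (hc11 : S_c11) (hc2 : S_c2) : S_rel := by
  intro S hS l hl
  have hC : ∀ (n a : ℕ), (PowerSeries.C ((n : R) * x ^ a) : PowerSeries R) =
    (n : PowerSeries R) * PowerSeries.C (x ^ a) := by intro n a; simp
  refine ⟨?_, ?_, ?_⟩
  · have h1 : gf (N1 S l) = gf (fun k m => ((S l).coeff 1 * Nx S k m +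
      ((l : R) * x ^ l) * rm l (N1 S l) k m) + ev l ((((l / 2 : ℕ) : R) * x ^ l) * rm (l / 2) (Nx S) k m)) :=
      gf_congr fun k m hm => hc1 S hS l hl k m hm
    simp only
    conv_lhs => rw [h1]
    rw [gf_add, gf_add, gf_mul, gf_mul, gf_ev, gf_mul, hC, hC]
    have h2 := gf_rm' hrem l hl (N1 S l)
    have h3 : ev l (((l / 2 : ℕ) : PowerSeries R) * PowerSeries.C (x ^ l) * gf (rm (l / 2) (Nx S))) =
        - ev l (mon l (l / 2) * gf (Nx S)) := by
      unfold ev
      split_ifs with hev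
      · have hl2 : 1 ≤ l / 2 := by obtain ⟨j, rfl⟩ := hev; omega
        have h4 := gf_rm' hrem (l / 2) hl2 (Nx S)
        unfold mon
        linear_combination PowerSeries.C (x ^ l) * h4
      · simp
    rw [h3]
    unfold mon
    linear_combination PowerSeries.C (x ^ l) * h2
  · have h1 : gf (N11 S l) = gf (fun k m => (((S l).coeff 1 * N1 S l k m +
      ((l : R) * x ^ l) * Nx S k m) + ((l : R) * x ^ l) * rm l (N11 S l) k m) +
      ev l ((((l / 2 : ℕ) : R) * x ^ l) * rm (l / 2) (N1 S l) k m)) :=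
      gf_congr fun k m hm => hc11 S hS l hl k m hm
    simp only
    conv_lhs => rw [h1]
    rw [gf_add, gf_add, gf_add, gf_mul, gf_mul, gf_mul, gf_ev, gf_mul, hC, hC]
    have h2 := gf_rm' hrem l hl (N11 S l)
    have h3 : ev l (((l / 2 : ℕ) : PowerSeries R) * PowerSeries.C (x ^ l) * gf (rm (l / 2) (N1 S l))) =
        - ev l (mon l (l / 2) * gf (N1 S l)) := by
      unfold ev
      split_ifs with hev
      · have hl2 : 1 ≤ l / 2 := by obtain ⟨j, rfl⟩ := hev; omega
        have h4 := gf_rm' hrem (l / 2) hl2 (N1 S l)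
        unfold mon
        linear_combination PowerSeries.C (x ^ l) * h4
      · simp
    rw [h3]
    unfold mon
    linear_combination PowerSeries.C (x ^ l) * h2
  · have h1 : gf (N2 S l) = gf (fun k m => (((((S l).coeff 2 * Nx S k m
      + (S l).coeff 1 * (((l : R) * x ^ l) * rm l (N1 S l) k m
        + ev l ((((l / 2 : ℕ) : R) * x ^ l) * rm (l / 2) (Nx S) k m)))
      + Polynomial.C (2⁻¹ : ℚ) * ((((l : R) ^ 2 * x ^ (2 * l)) * rm l (rm l (N11 S l)) k m
        + 2 * ev l (((l : R) * ((l / 2 : ℕ) : R) * x ^ (2 * l)) * rm l (rm (l / 2) (N1 S l)) k m))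
        + ev l ((((l / 2 : ℕ) : R) ^ 2 * x ^ (2 * l)) * rm (l / 2) (rm (l / 2) (Nx S)) k m)))
      + (((l.choose 2 : ℕ) : R) * x ^ (2 * l)) * rm l (Nx S) k m)
      + ((l : R) * x ^ (2 * l)) * rm (2 * l) (N1 S (2 * l)) k m)) := by
      apply gf_congr
      intro k m hm
      rw [hc2 S hS l hl k m hm, ← Polynomial.smul_eq_C_mul]
    simp only
    conv_lhs => rw [h1]
    rw [gf_add, gf_add, gf_add, gf_add, gf_mul, gf_mul, gf_add, gf_mul, gf_ev, gf_mul, gf_mul, gf_add,
      gf_add, gf_mul, gf_mul, gf_ev, gf_mul, gf_ev, gf_mul, gf_mul, gf_mul, hC, hC, hC, hC]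
    have hcm2 : (PowerSeries.C ((l : R) ^ 2 * x ^ (2 * l)) : PowerSeries R) =
      (l : PowerSeries R) ^ 2 * PowerSeries.C (x ^ (2 * l)) := by simp
    have hcm3 : (PowerSeries.C ((l : R) * ((l / 2 : ℕ) : R) * x ^ (2 * l)) : PowerSeries R) =
      (l : PowerSeries R) * ((l / 2 : ℕ) : PowerSeries R) * PowerSeries.C (x ^ (2 * l)) := by simp
    have hcm4 : (PowerSeries.C (((l / 2 : ℕ) : R) ^ 2 * x ^ (2 * l)) : PowerSeries R) =
      ((l / 2 : ℕ) : PowerSeries R) ^ 2 * PowerSeries.C (x ^ (2 * l)) := by simp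
    rw [hcm2, hcm3, hcm4]
    have hc22 : (PowerSeries.C (2 : R) : PowerSeries R) = 2 := map_ofNat _ 2
    rw [hc22]
    -- the pieces
    have p1 := gf_rm' hrem l hl (N1 S l)
    have p2 : ev l (((l / 2 : ℕ) : PowerSeries R) * PowerSeries.C (x ^ l) * gf (rm (l / 2) (Nx S))) =
        - ev l (mon l (l / 2) * gf (Nx S)) := by
      unfold ev
      split_ifs with hev
      · have hl2 : 1 ≤ l / 2 := by obtain ⟨j, rfl⟩ := hev; omega
        have h4 := gf_rm' hrem (l / 2) hl2 (Nx S)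
        unfold mon
        linear_combination PowerSeries.C (x ^ l) * h4
      · simp
    have p3 : (l : PowerSeries R) ^ 2 * gf (rm l (rm l (N11 S l))) =
        PowerSeries.X ^ (2 * l) * gf (N11 S l) := by
      have a1 := gf_rm' hrem l hl (rm l (N11 S l))
      have a2 := gf_rm' hrem l hl (N11 S l)
      linear_combination (l : PowerSeries R) * a1 - PowerSeries.X ^ l * a2
    have p4 : ev l ((l : PowerSeries R) * ((l / 2 : ℕ) : PowerSeries R) * PowerSeries.C (x ^ (2 * l)) *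
        gf (rm l (rm (l / 2) (N1 S l)))) = ev l (mon (2 * l) (l + l / 2) * gf (N1 S l)) := by
      unfold ev
      split_ifs with hev
      · have hl2 : 1 ≤ l / 2 := by obtain ⟨j, rfl⟩ := hev; omega
        have a1 := gf_rm' hrem l hl (rm (l / 2) (N1 S l))
        have a2 := gf_rm' hrem (l / 2) hl2 (N1 S l)
        unfold mon
        rw [pow_add]
        linear_combination PowerSeries.C (x ^ (2 * l)) * (((l / 2 : ℕ) : PowerSeries R) * a1 -
          PowerSeries.X ^ l * a2)
      · rfl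
    have p5 : ev l (((l / 2 : ℕ) : PowerSeries R) ^ 2 * PowerSeries.C (x ^ (2 * l)) *
        gf (rm (l / 2) (rm (l / 2) (Nx S)))) = ev l (mon (2 * l) l * gf (Nx S)) := by
      unfold ev
      split_ifs with hev
      · have hl2 : 1 ≤ l / 2 := by obtain ⟨j, rfl⟩ := hev; omega
        have hl3 : l = l / 2 + l / 2 := by obtain ⟨j, rfl⟩ := hev; omega
        have a1 := gf_rm' hrem (l / 2) hl2 (rm (l / 2) (Nx S))
        have a2 := gf_rm' hrem (l / 2) hl2 (Nx S)
        unfold mon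
        have : (PowerSeries.X : PowerSeries R) ^ l = PowerSeries.X ^ (l / 2) * PowerSeries.X ^ (l / 2) := by
          rw [← pow_add, ← hl3]
        rw [this]
        linear_combination PowerSeries.C (x ^ (2 * l)) * (((l / 2 : ℕ) : PowerSeries R) * a1 -
          PowerSeries.X ^ (l / 2) * a2)
      · rfl
    have p6 : ((l.choose 2 : ℕ) : PowerSeries R) * gf (rm l (Nx S)) =
        - (((l : ℚ) - 1) / 2) • (PowerSeries.X ^ l * gf (Nx S)) := by
      rw [gf_rm hrem l hl, Algebra.smul_def, Algebra.smul_def, ← mul_assoc,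
        ← map_natCast (algebraMap ℚ (PowerSeries R)) (l.choose 2), ← map_mul]
      congr 2
      rw [Nat.cast_choose_two, wm]
      have : (l : ℚ) ≠ 0 := by exact_mod_cast (show l ≠ 0 by omega)
      field_simp
    have p7 : (l : PowerSeries R) * gf (rm (2 * l) (N1 S (2 * l))) =
        - (2⁻¹ : ℚ) • (PowerSeries.X ^ (2 * l) * gf (N1 S (2 * l))) := by
      rw [gf_rm hrem (2 * l) (by omega), Algebra.smul_def, Algebra.smul_def, ← mul_assoc,
        ← map_natCast (algebraMap ℚ (PowerSeries R)) l, ← map_mul]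
      congr 2
      rw [wm]
      have : (l : ℚ) ≠ 0 := by exact_mod_cast (show l ≠ 0 by omega)
      push_cast
      field_simp
    rw [p2, p4, p5]
    have hh : (PowerSeries.C (Polynomial.C (2⁻¹ : ℚ)) : PowerSeries R) =
        algebraMap ℚ (PowerSeries R) 2⁻¹ := by
      rw [PowerSeries.algebraMap_apply]; rfl
    rw [hh]
    simp only [Algebra.smul_def, map_neg] at p6 p7 ⊢
    have q1 : mon l l * gf (N1 S l) = PowerSeries.C (x ^ l) * (PowerSeries.X ^ l * gf (N1 S l)) := by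
      unfold mon; ring
    unfold mon
    linear_combination PowerSeries.C ((S l).coeff 1) * PowerSeries.C (x ^ l) * p1 +
      algebraMap ℚ (PowerSeries R) 2⁻¹ * PowerSeries.C (x ^ (2 * l)) * p3 +
      PowerSeries.C (x ^ (2 * l)) * p6 + PowerSeries.C (x ^ (2 * l)) * p7

theorem der (hrec : S_rec) (hsym : S_sym) : S_der := by
  intro S n
  have h := hrec (-1) (Nx S) (fun k e m => hsym S k m (fun _ => 2) e) n
  have hw : (fun l : ℕ => (-1 : ℚ) * (l : ℚ)⁻¹) = wm := by
    funext l; unfold wm; ring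
  rw [hw] at h
  simp only [gf, PowerSeries.coeff_mk]
  rw [h, neg_one_smul]
  rfl

end

end Pool.Agent.W871.HI
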