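import Pool.Agent.W871.HI.Defs

/-!
# MP_5f0aae_co: intermediate statements for the relations
-/

open Finset

namespace Pool.Agent.W871.HI

noncomputable section

/-- Coefficient of `∏ t_i ^ d i`. -/
def co (S : ℕ → Polynomial R) (k : ℕ) (m d : Fin k → ℕ) : R :=
  MvPolynomial.coeff (Finsupp.equivFunOnFinite.symm d) (P S k m)

/-- Symmetry. -/
def S_sym : Prop := ∀ (S : ℕ → Polynomial R) (k : ℕ) (m d : Fin k → ℕ) (e : Equiv.Perm (Fin k)),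
  co S k (m ∘ e) (d ∘ e) = co S k m d

/-- Remove one cycle of length `a`. -/
def rm (a : ℕ) (g : (k : ℕ) → (Fin k → ℕ) → R) : (k : ℕ) → (Fin k → ℕ) → R
  | 0, _ => 0
  | k + 1, m => ∑ j : Fin (k + 1), if m j = a then g k (j.removeNth m) else 0

def S_rem : Prop := ∀ (g : (k : ℕ) → (Fin k → ℕ) → R) (a n : ℕ), 1 ≤ a →
  T wm n (rm a g) = if a ≤ n then wm a • T wm (n - a) g else 0

def S_c1 : Prop := ∀ S : ℕ → Polynomial R, (∀ l, (S l).coeff 0 = 1) →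
  ∀ l, 1 ≤ l → ∀ (k : ℕ) (m : Fin k → ℕ), (∀ i, 1 ≤ m i) →
  N1 S l k m = (S l).coeff 1 * Nx S k m + (l : R) * x ^ l * rm l (N1 S l) k m
    + ev l (((l / 2 : ℕ) : R) * x ^ l * rm (l / 2) (Nx S) k m)

def S_c11 : Prop := ∀ S : ℕ → Polynomial R, (∀ l, (S l).coeff 0 = 1) →
  ∀ l, 1 ≤ l → ∀ (k : ℕ) (m : Fin k → ℕ), (∀ i, 1 ≤ m i) →
  N11 S l k m = (S l).coeff 1 * N1 S l k m + (l : R) * x ^ l * Nx S k m
    + (l : R) * x ^ l * rm l (N11 S l) k m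
    + ev l (((l / 2 : ℕ) : R) * x ^ l * rm (l / 2) (N1 S l) k m)

def S_c2 : Prop := ∀ S : ℕ → Polynomial R, (∀ l, (S l).coeff 0 = 1) →
  ∀ l, 1 ≤ l → ∀ (k : ℕ) (m : Fin k → ℕ), (∀ i, 1 ≤ m i) →
  N2 S l k m = (S l).coeff 2 * Nx S k m
    + (S l).coeff 1 * ((l : R) * x ^ l * rm l (N1 S l) k m
        + ev l (((l / 2 : ℕ) : R) * x ^ l * rm (l / 2) (Nx S) k m))
    + (2⁻¹ : ℚ) • ((l : R) ^ 2 * x ^ (2 * l) * rm l (rm l (N11 S l)) k m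
        + 2 * ev l ((l : R) * ((l / 2 : ℕ) : R) * x ^ (2 * l) * rm l (rm (l / 2) (N1 S l)) k m)
        + ev l (((l / 2 : ℕ) : R) ^ 2 * x ^ (2 * l) * rm (l / 2) (rm (l / 2) (Nx S)) k m))
    + ((l.choose 2 : ℕ) : R) * x ^ (2 * l) * rm l (Nx S) k m
    + (l : R) * x ^ (2 * l) * rm (2 * l) (N1 S (2 * l)) k m

end

end Pool.Agent.W871.HI
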